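import Pool.Agent.R795.EX.Main

/-!
# Fibrancy of the second Ex of a nerve is not invariant under passing to the opposite category

The category is the fence `0 < 1 > 2 < 3 > 4`, a poset with five elements. The double `Ex` of its
nerve is a Kan complex, the double `Ex` of the nerve of its opposite is not.
-/

set_option autoImplicit false

open CategoryTheory

namespace Pool.Agent.Results.MP_bcd555_gt.ExTwoNotSelfDual

theorem result : ∃ (C : Type) (_ : SmallCategory C),
    SSet.KanComplex (SSet.ex.{0}.obj (SSet.ex.{0}.obj (nerve C))) ∧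
      ¬ SSet.KanComplex (SSet.ex.{0}.obj (SSet.ex.{0}.obj (nerve Cᵒᵖ))) :=
  ⟨Pool.Agent.R795.EX.Fence 4, inferInstance, Pool.Agent.R795.EX.kan_four,
    Pool.Agent.R795.EX.not_kan_op⟩

end Pool.Agent.Results.MP_bcd555_gt.ExTwoNotSelfDual
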